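import Pool.Agent.W586.CS.Stm

/-!
# S_G1: one dimensional Gaussian moments
-/

namespace Pool.Agent.W177.CS.G1

open MeasureTheory

lemma integ (k : ℕ) : Integrable (fun x : ℝ => x ^ k * Real.exp (-x ^ 2)) := by
  have h := integrable_rpow_mul_exp_neg_mul_sq (b := 1) one_pos (s := (k : ℝ))
    (by have : (0 : ℝ) ≤ k := Nat.cast_nonneg k
        linarith)
  refine h.congr (Filter.Eventually.of_forall fun x => ?_)
  simp only [Real.rpow_natCast]
  congr 2
  ring

lemma deriv_aux (k : ℕ) (x : ℝ) : HasDerivAt (fun x : ℝ => x ^ k * Real.exp (-x ^ 2))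
    ((k : ℝ) * (x ^ (k - 1) * Real.exp (-x ^ 2)) - 2 * (x ^ (k + 1) * Real.exp (-x ^ 2))) x := by
  have h1 : HasDerivAt (fun x : ℝ => x ^ k) ((k : ℝ) * x ^ (k - 1)) x := hasDerivAt_pow k x
  have h2 : HasDerivAt (fun x : ℝ => -x ^ 2) (-(2 * x)) x := by
    have := (hasDerivAt_pow 2 x).fun_neg
    refine this.congr_deriv ?_
    push_cast
    ring
  have h3 := h1.mul h2.exp
  refine h3.congr_deriv ?_
  rw [pow_succ]
  ring

theorem main : Pool.Agent.W586.CS.S_G1 := by
  intro k
  refine ⟨integ k, ?_⟩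
  have h := integral_eq_zero_of_hasDerivAt_of_integrable (deriv_aux k)
    (((integ (k - 1)).const_mul _).sub ((integ (k + 1)).const_mul _)) (integ k)
  rw [integral_sub ((integ (k - 1)).const_mul _) ((integ (k + 1)).const_mul _),
    integral_const_mul, integral_const_mul] at h
  linarith

end Pool.Agent.W177.CS.G1
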